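import Mathlib
import Pool.Agent.X65.KM

/-!
# Line arrangements with `n ≥ 10` lines, other than near-pencils, have at least `2n - 4` vertices
-/

set_option autoImplicit false

namespace Pool.Agent.Results.MP_3f465e_co.VertexBound

open Module Pool.Agent.Helper543.Melchior
open scoped Classical

/-- A 2-arrangement: at least three lines of the real projective plane (two-dimensional subspaces
of `ℝ³`), not all through one common point (one-dimensional subspace). -/
structure IsArrangement (A : Finset (Submodule ℝ (Fin 3 → ℝ))) : Prop where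
  three_le : 3 ≤ A.card
  lines : ∀ l ∈ A, finrank ℝ l = 2
  not_concurrent : ¬ ∃ p : Submodule ℝ (Fin 3 → ℝ), finrank ℝ p = 1 ∧ ∀ l ∈ A, p ≤ l

/-- The vertices: the points on at least two lines of the arrangement. -/
def vertices (A : Finset (Submodule ℝ (Fin 3 → ℝ))) : Set (Submodule ℝ (Fin 3 → ℝ)) :=
  {p | finrank ℝ p = 1 ∧ ∃ l ∈ A, ∃ m ∈ A, l ≠ m ∧ p ≤ l ∧ p ≤ m}

/-- A near-pencil: some point lies on all but one of the lines. -/
def IsNearPencil (A : Finset (Submodule ℝ (Fin 3 → ℝ))) : Prop :=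
  ∃ p : Submodule ℝ (Fin 3 → ℝ), finrank ℝ p = 1 ∧ (A.filter (fun l => p ≤ l)).card + 1 = A.card

theorem exists_functional (l : Submodule ℝ (Fin 3 → ℝ)) (hl : finrank ℝ l = 2) :
    ∃ f : (Fin 3 → ℝ) →ₗ[ℝ] ℝ, LinearMap.ker f = l := by
  have hlt : l < ⊤ := by
    rw [lt_top_iff_ne_top]
    intro h
    rw [h, finrank_top, finrank_pi] at hl
    simp at hl
  obtain ⟨f, hf0, hf⟩ := Submodule.exists_le_ker_of_lt_top l hlt
  refine ⟨f, ?_⟩
  have h1 := LinearMap.finrank_range_add_finrank_ker f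
  have h2 : finrank ℝ (LinearMap.range f) = 1 := by
    have : LinearMap.range f = ⊤ := LinearMap.range_eq_top.mpr (LinearMap.surjective hf0)
    rw [this, finrank_top, finrank_self]
  have h3 : finrank ℝ (Fin 3 → ℝ) = 3 := by simp
  exact (Submodule.eq_of_le_of_finrank_le hf (by omega)).symm

theorem inf_finrank {l m : Submodule ℝ (Fin 3 → ℝ)} (hl : finrank ℝ l = 2) (hm : finrank ℝ m = 2)
    (hlm : l ≠ m) : finrank ℝ (l ⊓ m : Submodule ℝ (Fin 3 → ℝ)) = 1 := by
  have h1 := Submodule.finrank_sup_add_finrank_inf_eq l m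
  have h2 : finrank ℝ (l ⊔ m : Submodule ℝ (Fin 3 → ℝ)) ≤ 3 := by
    have := Submodule.finrank_le (l ⊔ m)
    simpa using this
  have h3 : finrank ℝ (l ⊓ m : Submodule ℝ (Fin 3 → ℝ)) < 2 := by
    by_contra hge
    have h4 : l ⊓ m = l := Submodule.eq_of_le_of_finrank_le inf_le_left (by omega)
    have h5 : l ⊓ m = m := Submodule.eq_of_le_of_finrank_le inf_le_right (by omega)
    exact hlm (h4.symm.trans h5)
  omega

/-- Normalised functionals for all lines of the arrangement. -/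
theorem exists_frame (A : Finset (Submodule ℝ (Fin 3 → ℝ))) (hA : ∀ l ∈ A, finrank ℝ l = 2) :
    ∃ (u : Fin 3 → ℝ) (g : Submodule ℝ (Fin 3 → ℝ) → ((Fin 3 → ℝ) →ₗ[ℝ] ℝ)), u 0 ≠ 0 ∧
      ∀ l ∈ A, LinearMap.ker (g l) = l ∧ g l u = 1 := by
  have hne : ⊤ ∉ insert (LinearMap.ker (LinearMap.proj (R := ℝ) (φ := fun _ : Fin 3 => ℝ) 0)) A := by
    intro h
    rcases Finset.mem_insert.mp h with h | h
    · have : (Pi.single 0 1 : Fin 3 → ℝ) ∈
          LinearMap.ker (LinearMap.proj (R := ℝ) (φ := fun _ : Fin 3 => ℝ) 0) := by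
        rw [← h]; trivial
      rw [LinearMap.mem_ker] at this
      simp at this
    · have := hA _ h
      rw [finrank_top, finrank_pi] at this
      simp at this
  have h1 := Subspace.biUnion_ne_univ_of_top_notMem hne
  obtain ⟨u, hu⟩ := (Set.ne_univ_iff_exists_notMem _).mp h1
  simp only [Set.mem_iUnion, not_exists, SetLike.mem_coe] at hu
  have hu0 := hu _ (Finset.mem_insert_self _ _)
  have huA : ∀ l ∈ A, u ∉ l := fun l hl => hu l (Finset.mem_insert_of_mem hl)
  have hex : ∀ l : Submodule ℝ (Fin 3 → ℝ), ∃ f : (Fin 3 → ℝ) →ₗ[ℝ] ℝ, l ∈ A →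
      LinearMap.ker f = l ∧ f u = 1 := by
    intro l
    by_cases hl : l ∈ A
    · obtain ⟨f, hf⟩ := exists_functional l (hA l hl)
      have hfu : f u ≠ 0 := by
        intro h
        apply huA l hl
        rw [← hf]; exact h
      refine ⟨(f u)⁻¹ • f, fun _ => ⟨?_, ?_⟩⟩
      · rw [LinearMap.ker_smul _ _ (inv_ne_zero hfu), hf]
      · simp [hfu]
    · exact ⟨0, fun h => absurd h hl⟩
  choose g hg using hex
  refine ⟨u, g, ?_, hg⟩
  intro h
  apply hu0
  rw [LinearMap.mem_ker]; exact h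

/-- The affine point of a functional. -/
def pnt (g : (Fin 3 → ℝ) →ₗ[ℝ] ℝ) : ℝ × ℝ := (g (Pi.single 1 1), g (Pi.single 2 1))

theorem expand (g : (Fin 3 → ℝ) →ₗ[ℝ] ℝ) (x : Fin 3 → ℝ) :
    g x = x 0 * g (Pi.single 0 1) + x 1 * g (Pi.single 1 1) + x 2 * g (Pi.single 2 1) := by
  have h : x = x 0 • (Pi.single 0 1 : Fin 3 → ℝ) + x 1 • (Pi.single 1 1 : Fin 3 → ℝ) +
      x 2 • (Pi.single 2 1 : Fin 3 → ℝ) := by
    funext i
    fin_cases i <;> simp
  conv_lhs => rw [h]
  simp only [map_add, map_smul, smul_eq_mul]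

theorem zero_coord {u : Fin 3 → ℝ} (hu : u 0 ≠ 0) {g : (Fin 3 → ℝ) →ₗ[ℝ] ℝ} (hg : g u = 1) :
    g (Pi.single 0 1) = (1 - u 1 * (pnt g).1 - u 2 * (pnt g).2) / u 0 := by
  rw [expand] at hg
  rw [eq_div_iff hu]
  simp only [pnt]
  linear_combination hg

theorem pnt_inj {u : Fin 3 → ℝ} (hu : u 0 ≠ 0) {g g' : (Fin 3 → ℝ) →ₗ[ℝ] ℝ} (hg : g u = 1)
    (hg' : g' u = 1) (h : pnt g = pnt g') : g = g' := by
  have h0 := zero_coord hu hg
  have h0' := zero_coord hu hg'
  rw [h, ← h0'] at h0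
  have h1 := congrArg Prod.fst h
  have h2 := congrArg Prod.snd h
  simp only [pnt] at h1 h2
  ext x
  fin_cases x
  · simpa using h0
  · simpa using h1
  · simpa using h2

theorem cr_iff {u : Fin 3 → ℝ} (hu : u 0 ≠ 0) {g g' g'' : (Fin 3 → ℝ) →ₗ[ℝ] ℝ} (hg : g u = 1)
    (hg' : g' u = 1) (hg'' : g'' u = 1) (hne : pnt g ≠ pnt g') :
    cr (pnt g) (pnt g') (pnt g'') = 0 ↔
      LinearMap.ker g ⊓ LinearMap.ker g' ≤ LinearMap.ker g'' := by
  have h0 := zero_coord hu hg
  have h0' := zero_coord hu hg'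
  have h0'' := zero_coord hu hg''
  constructor
  · intro h
    obtain ⟨s, h1, h2⟩ := exists_param hne h
    intro x hx
    obtain ⟨hx1, hx2⟩ := Submodule.mem_inf.mp hx
    rw [LinearMap.mem_ker] at hx1 hx2 ⊢
    rw [expand, h0] at hx1
    rw [expand, h0'] at hx2
    rw [expand, h0'']
    change x 0 * _ + x 1 * (pnt g).1 + x 2 * (pnt g).2 = 0 at hx1
    change x 0 * _ + x 1 * (pnt g').1 + x 2 * (pnt g').2 = 0 at hx2
    change x 0 * _ + x 1 * (pnt g'').1 + x 2 * (pnt g'').2 = 0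
    have e1 : (pnt g'').1 = (pnt g).1 + s * ((pnt g').1 - (pnt g).1) := by linarith
    have e2 : (pnt g'').2 = (pnt g).2 + s * ((pnt g').2 - (pnt g).2) := by linarith
    rw [e1, e2]
    have : x 0 * ((1 - u 1 * ((pnt g).1 + s * ((pnt g').1 - (pnt g).1)) -
        u 2 * ((pnt g).2 + s * ((pnt g').2 - (pnt g).2))) / u 0) +
        x 1 * ((pnt g).1 + s * ((pnt g').1 - (pnt g).1)) +
        x 2 * ((pnt g).2 + s * ((pnt g').2 - (pnt g).2)) =
        (1 - s) * (x 0 * ((1 - u 1 * (pnt g).1 - u 2 * (pnt g).2) / u 0) + x 1 * (pnt g).1 +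
          x 2 * (pnt g).2) + s * (x 0 * ((1 - u 1 * (pnt g').1 - u 2 * (pnt g').2) / u 0) +
          x 1 * (pnt g').1 + x 2 * (pnt g').2) := by ring
    rw [this, hx1, hx2]; ring
  · intro h
    set b0 := g (Pi.single 0 1) with hb0
    set b1 := g (Pi.single 1 1) with hb1
    set b2 := g (Pi.single 2 1) with hb2
    set c0 := g' (Pi.single 0 1) with hc0
    set c1 := g' (Pi.single 1 1) with hc1
    set c2 := g' (Pi.single 2 1) with hc2
    have hw : (![b1 * c2 - b2 * c1, b2 * c0 - b0 * c2, b0 * c1 - b1 * c0] : Fin 3 → ℝ) ∈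
        LinearMap.ker g ⊓ LinearMap.ker g' := by
      rw [Submodule.mem_inf, LinearMap.mem_ker, LinearMap.mem_ker, expand g, expand g',
        ← hb0, ← hb1, ← hb2, ← hc0, ← hc1, ← hc2]
      simp only [Matrix.cons_val_zero, Matrix.cons_val_one, Matrix.cons_val]
      constructor <;> ring
    have h3 := h hw
    rw [LinearMap.mem_ker, expand g''] at h3
    simp only [Matrix.cons_val_zero, Matrix.cons_val_one, Matrix.cons_val] at h3
    have k0 : u 0 * b0 + u 1 * b1 + u 2 * b2 = 1 := by rw [hb0, hb1, hb2, ← expand]; exact hg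
    have k1 : u 0 * c0 + u 1 * c1 + u 2 * c2 = 1 := by rw [hc0, hc1, hc2, ← expand]; exact hg'
    have k2 : u 0 * g'' (Pi.single 0 1) + u 1 * g'' (Pi.single 1 1) +
      u 2 * g'' (Pi.single 2 1) = 1 := by rw [← expand]; exact hg''
    simp only [cr, pnt, ← hb1, ← hb2, ← hc1, ← hc2]
    linear_combination u 0 * h3 - (b1 * c2 - b2 * c1) * k2 -
      (g'' (Pi.single 1 1) * b2 - g'' (Pi.single 2 1) * b1) * k1 -
      (g'' (Pi.single 2 1) * c1 - g'' (Pi.single 1 1) * c2) * k0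

/-- Every arrangement of `n ≥ 10` lines in the real projective plane that is not a near-pencil has
at least `2n - 4` vertices. -/
theorem result (A : Finset (Submodule ℝ (Fin 3 → ℝ))) (hA : IsArrangement A) (hn : 10 ≤ A.card)
    (hnp : ¬ IsNearPencil A) :
    (vertices A).Finite ∧ 2 * A.card - 4 ≤ (vertices A).ncard := by
  obtain ⟨u, g, hu, hg⟩ := exists_frame A hA.lines
  set P : Submodule ℝ (Fin 3 → ℝ) → ℝ × ℝ := fun l => pnt (g l) with hP
  have hinj : Set.InjOn P (A : Set (Submodule ℝ (Fin 3 → ℝ))) := by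
    intro l hl m hm h
    have h1 := pnt_inj hu (hg l hl).2 (hg m hm).2 h
    rw [← (hg l hl).1, ← (hg m hm).1, h1]
  set S : Finset (ℝ × ℝ) := A.image P with hS
  have hSc : S.card = A.card := Finset.card_image_of_injOn hinj
  have hcr : ∀ l ∈ A, ∀ m ∈ A, ∀ k ∈ A, l ≠ m → (cr (P l) (P m) (P k) = 0 ↔ l ⊓ m ≤ k) := by
    intro l hl m hm k hk hlm
    have h := cr_iff hu (hg l hl).2 (hg m hm).2 (hg k hk).2 (fun h => hlm (hinj hl hm h))
    rw [(hg l hl).1, (hg m hm).1, (hg k hk).1] at h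
    exact h
  have hPS : ∀ l ∈ A, P l ∈ S := fun l hl => Finset.mem_image_of_mem _ hl
  -- the vertices
  set W : Finset (Submodule ℝ (Fin 3 → ℝ)) := A.offDiag.image (fun q => q.1 ⊓ q.2) with hW
  have hV : vertices A = (W : Set (Submodule ℝ (Fin 3 → ℝ))) := by
    ext p
    simp only [vertices, Set.mem_ofPred_eq, hW, Finset.coe_image, Set.mem_image, Finset.mem_coe,
      Finset.mem_offDiag, Prod.exists]
    constructor
    · rintro ⟨hp, l, hl, m, hm, hlm, h1, h2⟩
      refine ⟨l, m, ⟨hl, hm, hlm⟩, ?_⟩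
      symm
      apply Submodule.eq_of_le_of_finrank_le (le_inf h1 h2)
      rw [inf_finrank (hA.lines l hl) (hA.lines m hm) hlm, hp]
    · rintro ⟨l, m, ⟨hl, hm, hlm⟩, rfl⟩
      exact ⟨inf_finrank (hA.lines l hl) (hA.lines m hm) hlm, l, hl, m, hm, hlm, inf_le_left,
        inf_le_right⟩
  -- lines of `S` and vertices
  have hline : ∀ l ∈ A, ∀ m ∈ A, l ≠ m →
      lineOf S (P l) (P m) = (A.filter (fun k => l ⊓ m ≤ k)).image P := by
    intro l hl m hm hlm
    ext x
    rw [mem_lineOf, Finset.mem_image, Finset.mem_image]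
    constructor
    · rintro ⟨⟨k, hk, rfl⟩, h⟩
      exact ⟨k, Finset.mem_filter.mpr ⟨hk, (hcr l hl m hm k hk hlm).mp h⟩, rfl⟩
    · rintro ⟨k, hk, rfl⟩
      obtain ⟨hk1, hk2⟩ := Finset.mem_filter.mp hk
      exact ⟨⟨k, hk1, rfl⟩, (hcr l hl m hm k hk1 hlm).mpr hk2⟩
  have hcard : (Pool.Agent.Helper543.Melchior.lines S).card ≤ W.card := by
    have : Pool.Agent.Helper543.Melchior.lines S ⊆
        W.image (fun v => (A.filter (fun k => v ≤ k)).image P) := by
      intro M hM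
      obtain ⟨⟨a, b⟩, hab, rfl⟩ := Finset.mem_image.mp hM
      obtain ⟨ha, hb, hne⟩ := Finset.mem_offDiag.mp hab
      obtain ⟨l, hl, rfl⟩ := Finset.mem_image.mp ha
      obtain ⟨m, hm, rfl⟩ := Finset.mem_image.mp hb
      have hlm : l ≠ m := fun h => hne (by rw [h])
      refine Finset.mem_image.mpr ⟨l ⊓ m, ?_, (hline l hl m hm hlm).symm⟩
      exact Finset.mem_image.mpr ⟨(l, m), Finset.mem_offDiag.mpr ⟨hl, hm, hlm⟩, rfl⟩
    exact (Finset.card_le_card this).trans Finset.card_image_le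
  have hncol : ∃ a ∈ S, ∃ b ∈ S, ∃ c ∈ S, cr a b c ≠ 0 := by
    by_contra hno
    push Not at hno
    obtain ⟨l, hl, m, hm, hlm⟩ := Finset.one_lt_card.mp (by omega : 1 < A.card)
    apply hA.not_concurrent
    refine ⟨l ⊓ m, inf_finrank (hA.lines l hl) (hA.lines m hm) hlm, ?_⟩
    intro k hk
    exact (hcr l hl m hm k hk hlm).mp (hno _ (hPS l hl) _ (hPS m hm) _ (hPS k hk))
  have hmax : ∀ M ∈ Pool.Agent.Helper543.Melchior.lines S, M.card + 2 ≤ S.card := by
    intro M hM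
    obtain ⟨⟨a, b⟩, hab, rfl⟩ := Finset.mem_image.mp hM
    obtain ⟨ha, hb, hne⟩ := Finset.mem_offDiag.mp hab
    obtain ⟨l, hl, rfl⟩ := Finset.mem_image.mp ha
    obtain ⟨m, hm, rfl⟩ := Finset.mem_image.mp hb
    have hlm : l ≠ m := fun h => hne (by rw [h])
    rw [hline l hl m hm hlm, hSc, Finset.card_image_of_injOn
      (hinj.mono (by intro k hk; exact (Finset.mem_filter.mp hk).1))]
    have hp := inf_finrank (hA.lines l hl) (hA.lines m hm) hlm
    have h1 : (A.filter (fun k => l ⊓ m ≤ k)).card ≤ A.card := Finset.card_filter_le _ _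
    have h2 : (A.filter (fun k => l ⊓ m ≤ k)).card ≠ A.card := by
      intro h
      apply hA.not_concurrent
      refine ⟨l ⊓ m, hp, ?_⟩
      have := Finset.eq_of_subset_of_card_le (Finset.filter_subset (fun k => l ⊓ m ≤ k) A) h.ge
      intro k hk
      rw [← this] at hk
      exact (Finset.mem_filter.mp hk).2
    have h3 : (A.filter (fun k => l ⊓ m ≤ k)).card + 1 ≠ A.card := fun h => hnp ⟨l ⊓ m, hp, h⟩
    omega
  have hmain := Pool.Agent.X65.KM.lines_ge (by omega) hncol hmax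
  rw [hV]
  refine ⟨Finset.finite_toSet _, ?_⟩
  rw [Set.ncard_coe_finset]
  omega

end Pool.Agent.Results.MP_3f465e_co.VertexBound
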